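import Pool.Agent.H41.CFX.Main

/-!
# Crossing families of 2-paths of linear size
-/

set_option autoImplicit false

namespace Pool.Agent.Results.MP_aa2cc0_co.CrossingTwoPaths

/-- Every finite set `P` of `n ≥ 3` points of the plane, no three of them collinear, has
`m ≥ n / (1200 * 16 ^ 15)` vertex-disjoint paths `a i, b i, c i` on its points, such that for two of
them the first edges cross properly or the second edges cross properly. Moreover some linear
functional is smaller at all first vertices than at all middle vertices, and smaller at all middle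
vertices than at all last vertices. -/
theorem result (P : Finset (ℝ × ℝ)) (hP : 3 ≤ P.card)
    (hcol : ∀ x ∈ P, ∀ y ∈ P, ∀ z ∈ P, x ≠ y → x ≠ z → y ≠ z →
      ¬ Collinear ℝ ({x, y, z} : Set (ℝ × ℝ))) :
    ∃ (m : ℕ) (a b c : Fin m → ℝ × ℝ) (l : ℝ × ℝ →ₗ[ℝ] ℝ),
      P.card ≤ 1200 * 16 ^ 15 * m ∧
      (∀ i, a i ∈ P ∧ b i ∈ P ∧ c i ∈ P) ∧
      Function.Injective a ∧ Function.Injective b ∧ Function.Injective c ∧
      (∀ i j k, l (a i) < l (b j) ∧ l (b j) < l (c k)) ∧
      ∀ i j, i ≠ j → (openSegment ℝ (a i) (b i) ∩ openSegment ℝ (a j) (b j)).Nonempty ∨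
        (openSegment ℝ (b i) (c i) ∩ openSegment ℝ (b j) (c j)).Nonempty :=
  Pool.Agent.H41.CFX.main P hP hcol

end Pool.Agent.Results.MP_aa2cc0_co.CrossingTwoPaths
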